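import Pool.Agent.L7h52.LF.Stm

/-! Project LF (helper52): `S_DIS`. -/

set_option autoImplicit false

open Finset MeasureTheory

namespace Pool.Agent.L7h22.LF

open Pool.Agent.L7h52.LF

theorem s_DIS : S_DIS := by
  intro f α β δ hf hf0 hαβ hδ
  -- the number of cells
  set n : ℕ := ⌊(β - α) / δ⌋₊ with hn
  have hq0 : 0 ≤ (β - α) / δ := div_nonneg (by linarith) hδ.le
  have hn1 : (n : ℝ) ≤ (β - α) / δ := Nat.floor_le hq0
  have hn2 : (β - α) / δ < n + 1 := Nat.lt_floor_add_one _
  have hn1' : (n : ℝ) * δ ≤ β - α := by rwa [le_div_iff₀ hδ] at hn1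
  have hn2' : β - α < (n + 1) * δ := by rwa [div_lt_iff₀ hδ] at hn2
  -- the end points of the cells
  set u : ℕ → ℝ := fun i => min (α + i * δ) β with hu
  have hu0 : u 0 = α := by simp [hu, hαβ]
  have hun : u (n + 1) = β := by
    simp only [hu]
    rw [min_eq_right]
    push_cast
    linarith
  have hle : ∀ i, u i ≤ u (i + 1) := by
    intro i
    simp only [hu]
    apply min_le_min_right
    push_cast
    linarith
  have hlen : ∀ i, u (i + 1) ≤ u i + δ := by
    intro i
    simp only [hu]
    rcases le_total (α + i * δ) β with h | h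
    · rw [min_eq_left h]
      refine (min_le_left _ _).trans ?_
      push_cast
      linarith
    · rw [min_eq_right h]
      exact (min_le_right _ _).trans (by linarith)
  have hα : ∀ i, α ≤ u i := fun i => le_min (by have : (0 : ℝ) ≤ i * δ := by positivity
                                                linarith) hαβ
  have hβ : ∀ i, u i ≤ β := fun i => min_le_right _ _
  have hval : ∀ i ≤ n, u i = α + i * δ := by
    intro i hi
    simp only [hu]
    apply min_eq_left
    have : (i : ℝ) ≤ n := by exact_mod_cast hi
    nlinarith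
  -- the maximum points
  have hmax : ∀ i, ∃ x ∈ Set.Icc (u i) (u (i + 1)), IsMaxOn f (Set.Icc (u i) (u (i + 1))) x :=
    fun i => isCompact_Icc.exists_isMaxOn (Set.nonempty_Icc.2 (hle i)) hf.continuousOn
  choose x hx1 hx2 using hmax
  have hxlo : ∀ i ≤ n, α + i * δ ≤ x i := fun i hi => by rw [← hval i hi]; exact (hx1 i).1
  have hxhi : ∀ i ≤ n, x i ≤ α + (i + 1) * δ := fun i hi => by
    have h1 := (hx1 i).2
    have h2 := hlen i
    rw [hval i hi] at h2
    linarith
  -- separation
  have hsep : ∀ i j : ℕ, i ≤ n → j ≤ n → i + 3 ≤ j → x i + 2 * δ ≤ x j := by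
    intro i j hi hj hij
    have h1 := hxhi i hi
    have h2 := hxlo j hj
    have h3 : (i : ℝ) + 3 ≤ j := by exact_mod_cast hij
    nlinarith
  refine ⟨fun c => ((range (n + 1)).filter (fun i : ℕ => i % 3 = (c : ℕ))).image x, ?_, ?_, ?_, ?_⟩
  · intro c v hv
    rw [mem_image] at hv
    obtain ⟨i, -, rfl⟩ := hv
    exact ⟨(hα i).trans (hx1 i).1, (hx1 i).2.trans (hβ (i + 1))⟩
  · intro c v hv v' hv' hne
    rw [mem_image] at hv hv'
    obtain ⟨i, hi, rfl⟩ := hv
    obtain ⟨j, hj, rfl⟩ := hv'
    rw [mem_filter, mem_range] at hi hj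
    have hij : i ≠ j := fun h => hne (by rw [h])
    rcases lt_or_gt_of_ne hij with h | h
    · have := hsep i j (by omega) (by omega) (by omega)
      rw [abs_sub_comm]
      exact le_trans (by linarith) (le_abs_self _)
    · have := hsep j i (by omega) (by omega) (by omega)
      exact le_trans (by linarith) (le_abs_self _)
  · intro c
    have h1 : (((range (n + 1)).filter (fun i : ℕ => i % 3 = (c : ℕ))).image x).card ≤ n + 1 :=
      (card_image_le.trans (card_filter_le _ _)).trans (card_range _).le
    have h2 : ((((range (n + 1)).filter (fun i : ℕ => i % 3 = (c : ℕ))).image x).card : ℝ) ≤ n + 1 := by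
      exact_mod_cast h1
    linarith
  · -- the integral
    have hcell : ∀ i ∈ range (n + 1), ∫ v in (u i)..(u (i + 1)), f v ≤ δ * f (x i) := by
      intro i _
      have h1 : ∫ v in (u i)..(u (i + 1)), f v ≤ ∫ v in (u i)..(u (i + 1)), f (x i) := by
        apply intervalIntegral.integral_mono_on (hle i) (hf.intervalIntegrable _ _)
          intervalIntegrable_const
        intro v hv
        exact hx2 i hv
      rw [intervalIntegral.integral_const, smul_eq_mul] at h1
      have h2 : (u (i + 1) - u i) * f (x i) ≤ δ * f (x i) :=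
        mul_le_mul_of_nonneg_right (by linarith [hlen i]) (hf0 _)
      exact h1.trans h2
    have hsum : ∫ v in α..β, f v = ∑ i ∈ range (n + 1), ∫ v in (u i)..(u (i + 1)), f v := by
      rw [intervalIntegral.sum_integral_adjacent_intervals (fun k _ => hf.intervalIntegrable _ _),
        hu0, hun]
    rw [hsum]
    refine (sum_le_sum hcell).trans ?_
    rw [← mul_sum]
    apply mul_le_mul_of_nonneg_left _ hδ.le
    -- split by residues
    have hinj : ∀ c : Fin 3, Set.InjOn x
        (((range (n + 1)).filter (fun i : ℕ => i % 3 = (c : ℕ)) : Finset ℕ) : Set ℕ) := by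
      intro c i hi j hj hxij
      rw [mem_coe, mem_filter, mem_range] at hi hj
      by_contra hij
      rcases lt_or_gt_of_ne hij with h | h
      · have := hsep i j (by omega) (by omega) (by omega)
        linarith
      · have := hsep j i (by omega) (by omega) (by omega)
        linarith
    have hs2 : ∀ c : Fin 3, ∑ v ∈ ((range (n + 1)).filter (fun i : ℕ => i % 3 = (c : ℕ))).image x, f v =
        ∑ i ∈ (range (n + 1)).filter (fun i : ℕ => i % 3 = (c : ℕ)), f (x i) :=
      fun c => sum_image (hinj c)
    simp_rw [hs2, sum_filter]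
    rw [sum_comm]
    apply sum_le_sum
    intro i _
    have h3 : i % 3 < 3 := Nat.mod_lt _ (by norm_num)
    rw [sum_eq_single (⟨i % 3, h3⟩ : Fin 3)]
    · simp
    · intro c _ hc
      rw [if_neg]
      intro h
      exact hc (Fin.ext h.symm)
    · intro h
      exact absurd (mem_univ _) h

end Pool.Agent.L7h22.LF
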