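import Pool.Agent.L7h52.LF.Stm3

/-! Project LF (helper52): the weighted multiplicative energy `S_EN3`. -/

set_option autoImplicit false

open Finset

namespace Pool.Agent.L7h22.LF

open Pool.Agent.L7h52.LF

/-- three numbers and one divisor of their product -/
lemma split3 {p a b c : ℕ} (h : p ∣ a * (b * c)) :
    ∃ x y z, p = x * (y * z) ∧ x ∣ a ∧ y ∣ b ∧ z ∣ c := by
  obtain ⟨x, r, hx, hr, e⟩ := exists_dvd_and_dvd_of_dvd_mul h
  obtain ⟨y, z, hy, hz, e2⟩ := exists_dvd_and_dvd_of_dvd_mul hr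
  exact ⟨x, y, z, by rw [e, e2], hx, hy, hz⟩

/-- the matrix `g` of a pair of triples with equal products -/
lemma mat {p1 p2 p3 q1 q2 q3 : ℕ} (hp1 : 0 < p1) (hp2 : 0 < p2)
    (h : p1 * p2 * p3 = q1 * q2 * q3) :
    ∃ g : Fin 9 → ℕ, p1 = g 0 * g 1 * g 2 ∧ p2 = g 3 * g 4 * g 5 ∧ p3 = g 6 * g 7 * g 8 ∧
      q1 = g 0 * g 3 * g 6 ∧ q2 = g 1 * g 4 * g 7 ∧ q3 = g 2 * g 5 * g 8 := by
  obtain ⟨x1, x2, x3, ex, ⟨a1, h1⟩, ⟨a2, h2⟩, ⟨a3, h3⟩⟩ :=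
    split3 (a := q1) (b := q2) (c := q3) ⟨p2 * p3, by rw [← mul_assoc, ← h]; ring⟩
  have e1 : p2 * p3 = a1 * a2 * a3 := by
    have : p1 * (p2 * p3) = p1 * (a1 * a2 * a3) := by
      rw [← mul_assoc, h, h1, h2, h3, ex]; ring
    exact Nat.eq_of_mul_eq_mul_left hp1 this
  obtain ⟨y1, y2, y3, ey, ⟨b1, k1⟩, ⟨b2, k2⟩, ⟨b3, k3⟩⟩ :=
    split3 (a := a1) (b := a2) (c := a3) ⟨p3, by rw [e1]; ring⟩
  have e2 : p3 = b1 * b2 * b3 := by
    have : p2 * p3 = p2 * (b1 * b2 * b3) := by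
      rw [e1, k1, k2, k3, ey]; ring
    exact Nat.eq_of_mul_eq_mul_left hp2 this
  refine ⟨![x1, x2, x3, y1, y2, y3, b1, b2, b3], ?_, ?_, ?_, ?_, ?_, ?_⟩
  · show p1 = x1 * x2 * x3
    rw [ex]; ring
  · show p2 = y1 * y2 * y3
    rw [ey]; ring
  · exact e2
  · show q1 = x1 * y1 * b1
    rw [h1, k1]; ring
  · show q2 = x2 * y2 * b2
    rw [h2, k2]; ring
  · show q3 = x3 * y3 * b3
    rw [h3, k3]; ring

lemma mem_box {Q : ℕ} {p : ℕ × ℕ × ℕ} : p ∈ box Q ↔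
    (1 ≤ p.1 ∧ p.1 ≤ Q) ∧ (1 ≤ p.2.1 ∧ p.2.1 ≤ Q) ∧ (1 ≤ p.2.2 ∧ p.2.2 ≤ Q) := by
  unfold Pool.Agent.L7h52.LF.box
  rw [mem_product, mem_product, mem_Icc, mem_Icc, mem_Icc]

lemma prd_pos {Q : ℕ} {p : ℕ × ℕ × ℕ} (h : p ∈ box Q) : 0 < prd p := by
  rw [mem_box] at h
  unfold prd
  have h1 : 0 < p.1 := h.1.1
  have h2 : 0 < p.2.1 := h.2.1.1
  have h3 : 0 < p.2.2 := h.2.2.1
  positivity

/-- the recovery map -/
def rec9 (g : Fin 9 → ℕ) : (ℕ × ℕ × ℕ) × (ℕ × ℕ × ℕ) :=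
  ((g 0 * g 1 * g 2, g 3 * g 4 * g 5, g 6 * g 7 * g 8),
    (g 0 * g 3 * g 6, g 1 * g 4 * g 7, g 2 * g 5 * g 8))

/-- the exact energy -/
lemma exact_energy (Q : ℕ) :
    ∑ z ∈ (box Q ×ˢ box Q).filter (fun z : (ℕ × ℕ × ℕ) × (ℕ × ℕ × ℕ) => prd z.1 = prd z.2),
      1 / (prd z.1 : ℝ) ≤ (1 + Real.log Q) ^ 9 := by
  set S := (box Q ×ˢ box Q).filter (fun z : (ℕ × ℕ × ℕ) × (ℕ × ℕ × ℕ) => prd z.1 = prd z.2)
    with hS
  have hex : ∀ z ∈ S, ∃ g : Fin 9 → ℕ, (∀ i, g i ∈ Icc 1 Q) ∧ z = rec9 g := by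
    rintro ⟨⟨p1, p2, p3⟩, ⟨q1, q2, q3⟩⟩ hz
    rw [hS, mem_filter, mem_product, mem_box, mem_box] at hz
    obtain ⟨⟨⟨⟨a1, a2⟩, ⟨a3, a4⟩, ⟨a5, a6⟩⟩, ⟨⟨b1, b2⟩, ⟨b3, b4⟩, ⟨b5, b6⟩⟩⟩, heq⟩ := hz
    simp only at a1 a2 a3 a4 a5 a6 b1 b2 b3 b4 b5 b6
    unfold prd at heq
    obtain ⟨g, e1, e2, e3, e4, e5, e6⟩ := mat (p1 := p1) (p2 := p2) (p3 := p3) (q1 := q1) (q2 := q2)
      (q3 := q3) a1 a3 heq
    refine ⟨g, ?_, ?_⟩
    · have hpos3 : ∀ a b c d : ℕ, a = b * c * d → 1 ≤ a → 0 < b ∧ 0 < c ∧ 0 < d := by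
        intro a b c d ha h1
        refine ⟨Nat.pos_of_ne_zero ?_, Nat.pos_of_ne_zero ?_, Nat.pos_of_ne_zero ?_⟩ <;>
          · rintro rfl
            simp at ha
            omega
      obtain ⟨p0, p1', p2'⟩ := hpos3 _ _ _ _ e1 a1
      obtain ⟨p3', p4, p5⟩ := hpos3 _ _ _ _ e2 a3
      obtain ⟨p6, p7, p8⟩ := hpos3 _ _ _ _ e3 a5
      have hle : ∀ a b c d : ℕ, a = b * c * d → a ≤ Q → 0 < b → 0 < c → 0 < d →
          b ≤ Q ∧ c ≤ Q ∧ d ≤ Q := by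
        intro a b c d ha haQ hb hc hd
        have hb' : b ∣ a := ⟨c * d, by rw [ha]; ring⟩
        have hc' : c ∣ a := ⟨b * d, by rw [ha]; ring⟩
        have hd' : d ∣ a := ⟨b * c, by rw [ha]; ring⟩
        have ha0 : 0 < a := by rw [ha]; positivity
        exact ⟨(Nat.le_of_dvd ha0 hb').trans haQ, (Nat.le_of_dvd ha0 hc').trans haQ,
          (Nat.le_of_dvd ha0 hd').trans haQ⟩
      have k1 := hle _ _ _ _ e1 a2 p0 p1' p2'
      have k2 := hle _ _ _ _ e2 a4 p3' p4 p5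
      have k3 := hle _ _ _ _ e3 a6 p6 p7 p8
      intro i
      rw [mem_Icc]
      fin_cases i
      · exact ⟨p0, k1.1⟩
      · exact ⟨p1', k1.2.1⟩
      · exact ⟨p2', k1.2.2⟩
      · exact ⟨p3', k2.1⟩
      · exact ⟨p4, k2.2.1⟩
      · exact ⟨p5, k2.2.2⟩
      · exact ⟨p6, k3.1⟩
      · exact ⟨p7, k3.2.1⟩
      · exact ⟨p8, k3.2.2⟩
    · unfold rec9
      rw [← e1, ← e2, ← e3, ← e4, ← e5, ← e6]
  choose! φ hφ1 hφ2 using hex
  have hval : ∀ z ∈ S, 1 / (prd z.1 : ℝ) = ∏ i, 1 / ((φ z i : ℕ) : ℝ) := by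
    intro z hz
    have e := hφ2 z hz
    have e2 : prd z.1 = ∏ i, φ z i := by
      conv_lhs => rw [e]
      unfold rec9 prd
      simp only [Fin.prod_univ_succ]
      simp only [Fin.succ_zero_eq_one, Fin.succ_one_eq_two, univ_eq_empty, prod_empty, mul_one]
      show φ z 0 * φ z 1 * φ z 2 * (φ z 3 * φ z 4 * φ z 5) * (φ z 6 * φ z 7 * φ z 8) =
        φ z 0 * (φ z 1 * (φ z 2 * (φ z 3 * (φ z 4 * (φ z 5 * (φ z 6 * (φ z 7 * φ z 8)))))))
      ring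
    rw [e2, Nat.cast_prod, prod_div_distrib]
    simp
  have hinj : Set.InjOn φ (S : Set _) := by
    intro z hz w hw h
    rw [hφ2 z hz, hφ2 w hw, h]
  have h1 : ∑ z ∈ S, 1 / (prd z.1 : ℝ) = ∑ g ∈ S.image φ, ∏ i, 1 / ((g i : ℕ) : ℝ) := by
    rw [sum_image hinj]
    exact sum_congr rfl hval
  rw [h1]
  have h2 : S.image φ ⊆ Fintype.piFinset (fun _ : Fin 9 => Icc 1 Q) := by
    intro g hg
    rw [mem_image] at hg
    obtain ⟨z, hz, rfl⟩ := hg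
    rw [Fintype.mem_piFinset]
    exact hφ1 z hz
  refine (sum_le_sum_of_subset_of_nonneg h2 fun g _ _ => prod_nonneg fun i _ => by positivity).trans ?_
  rw [← prod_univ_sum (fun _ : Fin 9 => Icc 1 Q) (fun _ (n : ℕ) => 1 / (n : ℝ))]
  rw [prod_const, card_univ, Fintype.card_fin]
  apply pow_le_pow_left₀ (sum_nonneg fun n _ => by positivity)
  have h3 := harmonic_le_one_add_log Q
  rw [harmonic_eq_sum_Icc] at h3
  push_cast at h3
  simpa [one_div] using h3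

/-- a set of integers in a short interval -/
lemma card_le_of_diam (A : Finset ℕ) (L : ℝ) (hL : 0 ≤ L)
    (h : ∀ a ∈ A, ∀ b ∈ A, (a : ℝ) - b ≤ L) : (A.card : ℝ) ≤ L + 1 := by
  rcases A.eq_empty_or_nonempty with h0 | h0
  · rw [h0, card_empty, Nat.cast_zero]; linarith
  · have h1 : A ⊆ Icc (A.min' h0) (A.max' h0) := fun a ha =>
      mem_Icc.2 ⟨A.min'_le a ha, A.le_max' a ha⟩
    have h2 := card_le_card h1
    rw [Nat.card_Icc] at h2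
    have h3 := h _ (A.max'_mem h0) _ (A.min'_mem h0)
    have h4 : A.min' h0 ≤ A.max' h0 := A.min'_le _ (A.max'_mem h0)
    have h5 : (A.card : ℝ) ≤ ((A.max' h0 + 1 - A.min' h0 : ℕ) : ℝ) := by exact_mod_cast h2
    rw [Nat.cast_sub (by omega)] at h5
    push_cast at h5
    linarith

theorem s_EN3 : S_EN3 := by
  intro Q x y Δ hQ hx hy hΔ
  set F := (box Q ×ˢ box Q).filter (fun z : (ℕ × ℕ × ℕ) × (ℕ × ℕ × ℕ) =>
      |(prd z.1 : ℝ) * x - (prd z.2 : ℝ) * y| ≤ Δ * min x y) with hF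
  set γ : (ℕ × ℕ × ℕ) × (ℕ × ℕ × ℕ) → ℕ × ℕ := fun z => (prd z.1, prd z.2) with hγ
  set M := (box Q).image prd with hM
  set B := F.image γ with hB
  set d : ℕ → ℕ := fun n => ((box Q).filter (fun p => prd p = n)).card with hd
  have hBM : ∀ b ∈ B, b.1 ∈ M ∧ b.2 ∈ M ∧ |(b.1 : ℝ) * x - (b.2 : ℝ) * y| ≤ Δ * min x y := by
    intro b hb
    rw [hB, mem_image] at hb
    obtain ⟨z, hz, rfl⟩ := hb
    rw [hF, mem_filter, mem_product] at hz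
    exact ⟨mem_image_of_mem _ hz.1.1, mem_image_of_mem _ hz.1.2, hz.2⟩
  have hMpos : ∀ m ∈ M, 0 < m := by
    intro m hm
    rw [hM, mem_image] at hm
    obtain ⟨p, hp, rfl⟩ := hm
    exact prd_pos hp
  -- grouping
  have hg1 : ∑ z ∈ F, 1 / Real.sqrt ((prd z.1 : ℝ) * (prd z.2 : ℝ)) =
      ∑ b ∈ B, ((F.filter (fun z => γ z = b)).card : ℝ) * (1 / Real.sqrt ((b.1 : ℝ) * b.2)) := by
    have := sum_comp (s := F) (fun b : ℕ × ℕ => 1 / Real.sqrt ((b.1 : ℝ) * b.2)) γ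
    simp only [nsmul_eq_mul] at this
    exact this
  have hfib : ∀ b ∈ B, ((F.filter (fun z => γ z = b)).card : ℝ) ≤ (d b.1 : ℝ) * d b.2 := by
    intro b _
    have h1 : (F.filter (fun z => γ z = b)).card ≤ d b.1 * d b.2 := by
      rw [hd]
      simp only
      rw [← card_product]
      apply card_le_card
      intro z hz
      rw [mem_filter, hF, mem_filter, mem_product] at hz
      rw [mem_product, mem_filter, mem_filter]
      exact ⟨⟨hz.1.1.1, congrArg Prod.fst hz.2⟩, ⟨hz.1.1.2, congrArg Prod.snd hz.2⟩⟩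
    exact_mod_cast h1
  have hterm : ∀ b ∈ B, ((F.filter (fun z => γ z = b)).card : ℝ) * (1 / Real.sqrt ((b.1 : ℝ) * b.2)) ≤
      1 / 2 * ((d b.1 : ℝ) ^ 2 / b.1) + 1 / 2 * ((d b.2 : ℝ) ^ 2 / b.2) := by
    intro b hb
    obtain ⟨m1, m2, -⟩ := hBM b hb
    have p1 : (0 : ℝ) < b.1 := by exact_mod_cast hMpos _ m1
    have p2 : (0 : ℝ) < b.2 := by exact_mod_cast hMpos _ m2
    set s1 := Real.sqrt (b.1 : ℝ) with hs1
    set s2 := Real.sqrt (b.2 : ℝ) with hs2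
    have q1 : 0 < s1 := Real.sqrt_pos.2 p1
    have q2 : 0 < s2 := Real.sqrt_pos.2 p2
    have e1 : (b.1 : ℝ) = s1 ^ 2 := (Real.sq_sqrt p1.le).symm
    have e2 : (b.2 : ℝ) = s2 ^ 2 := (Real.sq_sqrt p2.le).symm
    have e3 : Real.sqrt ((b.1 : ℝ) * b.2) = s1 * s2 := Real.sqrt_mul p1.le _
    rw [e3]
    calc ((F.filter (fun z => γ z = b)).card : ℝ) * (1 / (s1 * s2))
        ≤ ((d b.1 : ℝ) * d b.2) * (1 / (s1 * s2)) :=
          mul_le_mul_of_nonneg_right (hfib b hb) (by positivity)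
      _ = ((d b.1 : ℝ) / s1) * ((d b.2 : ℝ) / s2) := by field_simp
      _ ≤ 1 / 2 * ((d b.1 : ℝ) / s1) ^ 2 + 1 / 2 * ((d b.2 : ℝ) / s2) ^ 2 := by
          nlinarith [sq_nonneg ((d b.1 : ℝ) / s1 - (d b.2 : ℝ) / s2)]
      _ = 1 / 2 * ((d b.1 : ℝ) ^ 2 / b.1) + 1 / 2 * ((d b.2 : ℝ) ^ 2 / b.2) := by
          rw [div_pow, div_pow, ← e1, ← e2]
  -- the two marginal sums
  set E : ℝ := ∑ m ∈ M, (d m : ℝ) ^ 2 / m with hE
  have hmarg1 : ∑ b ∈ B, (d b.1 : ℝ) ^ 2 / b.1 ≤ (2 * Δ + 1) * E := by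
    rw [← sum_fiberwise_of_maps_to (g := fun b : ℕ × ℕ => b.1) (fun b hb => (hBM b hb).1), hE,
      mul_sum]
    apply sum_le_sum
    intro m hm
    have h1 : ∑ b ∈ B.filter (fun b => b.1 = m), (d b.1 : ℝ) ^ 2 / b.1 =
        ((B.filter (fun b => b.1 = m)).card : ℝ) * ((d m : ℝ) ^ 2 / m) := by
      rw [← nsmul_eq_mul, ← sum_const]
      apply sum_congr rfl
      intro b hb
      rw [(mem_filter.1 hb).2]
    rw [h1]
    apply mul_le_mul_of_nonneg_right _ (by positivity)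
    have h2 : (B.filter (fun b => b.1 = m)).card =
        ((B.filter (fun b => b.1 = m)).image Prod.snd).card := by
      rw [card_image_of_injOn]
      intro a ha b hb h
      rw [mem_coe, mem_filter] at ha hb
      exact Prod.ext (ha.2.trans hb.2.symm) h
    rw [h2]
    apply card_le_of_diam _ _ (by positivity)
    intro a ha b hb
    rw [mem_image] at ha hb
    obtain ⟨a', ha', rfl⟩ := ha
    obtain ⟨b', hb', rfl⟩ := hb
    rw [mem_filter] at ha' hb'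
    have k1 := (abs_le.1 (hBM a' ha'.1).2.2).1
    have k2 := (abs_le.1 (hBM b' hb'.1).2.2).2
    rw [ha'.2] at k1
    rw [hb'.2] at k2
    have k3 : Δ * min x y ≤ Δ * y := mul_le_mul_of_nonneg_left (min_le_right _ _) hΔ
    have k4 : ((a'.2 : ℝ) - b'.2) * y ≤ 2 * Δ * y := by nlinarith
    exact le_of_mul_le_mul_right k4 hy
  have hmarg2 : ∑ b ∈ B, (d b.2 : ℝ) ^ 2 / b.2 ≤ (2 * Δ + 1) * E := by
    rw [← sum_fiberwise_of_maps_to (g := fun b : ℕ × ℕ => b.2) (fun b hb => (hBM b hb).2.1), hE,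
      mul_sum]
    apply sum_le_sum
    intro m hm
    have h1 : ∑ b ∈ B.filter (fun b => b.2 = m), (d b.2 : ℝ) ^ 2 / b.2 =
        ((B.filter (fun b => b.2 = m)).card : ℝ) * ((d m : ℝ) ^ 2 / m) := by
      rw [← nsmul_eq_mul, ← sum_const]
      apply sum_congr rfl
      intro b hb
      rw [(mem_filter.1 hb).2]
    rw [h1]
    apply mul_le_mul_of_nonneg_right _ (by positivity)
    have h2 : (B.filter (fun b => b.2 = m)).card =
        ((B.filter (fun b => b.2 = m)).image Prod.fst).card := by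
      rw [card_image_of_injOn]
      intro a ha b hb h
      rw [mem_coe, mem_filter] at ha hb
      exact Prod.ext h (ha.2.trans hb.2.symm)
    rw [h2]
    apply card_le_of_diam _ _ (by positivity)
    intro a ha b hb
    rw [mem_image] at ha hb
    obtain ⟨a', ha', rfl⟩ := ha
    obtain ⟨b', hb', rfl⟩ := hb
    rw [mem_filter] at ha' hb'
    have k1 := (abs_le.1 (hBM a' ha'.1).2.2).2
    have k2 := (abs_le.1 (hBM b' hb'.1).2.2).1
    rw [ha'.2] at k1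
    rw [hb'.2] at k2
    have k3 : Δ * min x y ≤ Δ * x := mul_le_mul_of_nonneg_left (min_le_left _ _) hΔ
    have k4 : ((a'.1 : ℝ) - b'.1) * x ≤ 2 * Δ * x := by nlinarith
    exact le_of_mul_le_mul_right k4 hx
  -- the diagonal
  have hE2 : E = ∑ z ∈ (box Q ×ˢ box Q).filter
      (fun z : (ℕ × ℕ × ℕ) × (ℕ × ℕ × ℕ) => prd z.1 = prd z.2), 1 / (prd z.1 : ℝ) := by
    rw [← sum_fiberwise_of_maps_to (t := M) (g := fun z : (ℕ × ℕ × ℕ) × (ℕ × ℕ × ℕ) => prd z.1)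
      (fun z hz => by
        rw [mem_filter, mem_product] at hz
        exact mem_image_of_mem _ hz.1.1), hE]
    apply sum_congr rfl
    intro m hm
    have h1 : ∑ z ∈ ((box Q ×ˢ box Q).filter
        (fun z : (ℕ × ℕ × ℕ) × (ℕ × ℕ × ℕ) => prd z.1 = prd z.2)).filter
        (fun z => prd z.1 = m), 1 / (prd z.1 : ℝ) =
        ((((box Q ×ˢ box Q).filter
        (fun z : (ℕ × ℕ × ℕ) × (ℕ × ℕ × ℕ) => prd z.1 = prd z.2)).filter
        (fun z => prd z.1 = m)).card : ℝ) * (1 / (m : ℝ)) := by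
      rw [← nsmul_eq_mul, ← sum_const]
      apply sum_congr rfl
      intro z hz
      rw [(mem_filter.1 hz).2]
    rw [h1]
    have h2 : ((box Q ×ˢ box Q).filter
        (fun z : (ℕ × ℕ × ℕ) × (ℕ × ℕ × ℕ) => prd z.1 = prd z.2)).filter
        (fun z => prd z.1 = m) =
        ((box Q).filter (fun p => prd p = m)) ×ˢ ((box Q).filter (fun p => prd p = m)) := by
      ext z
      rw [mem_filter, mem_filter, mem_product, mem_product, mem_filter, mem_filter]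
      constructor
      · rintro ⟨⟨⟨a, b⟩, c⟩, e⟩
        exact ⟨⟨a, e⟩, ⟨b, c.symm.trans e⟩⟩
      · rintro ⟨⟨a, e⟩, ⟨b, e'⟩⟩
        exact ⟨⟨⟨a, b⟩, e.trans e'.symm⟩, e⟩
    rw [h2, card_product]
    push_cast
    rw [hd]
    ring
  have hE3 : E ≤ (1 + Real.log Q) ^ 9 := by
    rw [hE2]
    exact exact_energy Q
  calc ∑ z ∈ F, 1 / Real.sqrt ((prd z.1 : ℝ) * (prd z.2 : ℝ))
      = ∑ b ∈ B, ((F.filter (fun z => γ z = b)).card : ℝ) * (1 / Real.sqrt ((b.1 : ℝ) * b.2)) := hg1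
    _ ≤ ∑ b ∈ B, (1 / 2 * ((d b.1 : ℝ) ^ 2 / b.1) + 1 / 2 * ((d b.2 : ℝ) ^ 2 / b.2)) :=
        sum_le_sum hterm
    _ = 1 / 2 * ∑ b ∈ B, (d b.1 : ℝ) ^ 2 / b.1 + 1 / 2 * ∑ b ∈ B, (d b.2 : ℝ) ^ 2 / b.2 := by
        rw [sum_add_distrib, ← mul_sum, ← mul_sum]
    _ ≤ (2 * Δ + 1) * E := by linarith
    _ ≤ (2 * Δ + 1) * (1 + Real.log Q) ^ 9 := mul_le_mul_of_nonneg_left hE3 (by positivity)

end Pool.Agent.L7h22.LF
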