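import Pool.Agent.L7h52.AR.Four
import Pool.Agent.L7h52.LF.Stm

/-! Project LF (helper52): the large sieve `S_LS`. -/

set_option autoImplicit false

open Finset MeasureTheory Complex
open scoped ComplexConjugate

namespace Pool.Agent.L7h22.LF

open Pool.Agent.L7h52.AR (G Dat cnt)
open Pool.Agent.L7h52.LF
open H177.Lat (tri tri_nonneg tri_zero tri_in tri_integrable KK KK_nonneg KK_le KK_sq)

/-- exponential sum with coefficients -/
noncomputable def W (Γ : Finset ℝ) (c : ℝ → ℝ) (v : ℝ) : ℂ :=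
  ∑ x ∈ Γ, (c x : ℂ) * cexp (I * ((v * x : ℝ) : ℂ))

lemma W_cont (Γ : Finset ℝ) (c : ℝ → ℝ) : Continuous (W Γ c) := by
  unfold W; fun_prop

lemma W_sq (B : Finset ℝ) (c : ℝ → ℝ) (v : ℝ) :
    ‖W B c v‖ ^ 2 = ∑ x ∈ B, ∑ y ∈ B, c x * c y * Real.cos (v * (x - y)) := by
  have h1 : ((‖W B c v‖ ^ 2 : ℝ) : ℂ) =
      ∑ x ∈ B, ∑ y ∈ B, ((c x * c y : ℝ) : ℂ) * cexp (((v * (x - y) : ℝ) : ℂ) * I) := by
    rw [← Complex.normSq_eq_norm_sq, ← Complex.mul_conj]
    unfold W
    rw [map_sum, sum_mul_sum]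
    refine sum_congr rfl fun x _ => sum_congr rfl fun y _ => ?_
    rw [map_mul, ← Complex.exp_conj, map_mul, Complex.conj_I, Complex.conj_ofReal,
      Complex.conj_ofReal]
    have : (c x : ℂ) * cexp (I * ((v * x : ℝ) : ℂ)) * ((c y : ℂ) * cexp (-I * ((v * y : ℝ) : ℂ))) =
        ((c x : ℂ) * (c y : ℂ)) * (cexp (I * ((v * x : ℝ) : ℂ)) * cexp (-I * ((v * y : ℝ) : ℂ))) := by
      ring
    rw [this, ← Complex.exp_add]
    congr 2
    · push_cast; ring
    · push_cast; ring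
  have h2 := congrArg Complex.re h1
  rw [Complex.ofReal_re, Complex.re_sum] at h2
  rw [h2]
  refine sum_congr rfl fun x _ => ?_
  rw [Complex.re_sum]
  refine sum_congr rfl fun y _ => ?_
  rw [Complex.re_ofReal_mul, Complex.exp_ofReal_mul_I_re]

theorem msqc {Γ : Finset ℝ} {T ℓ C : ℝ} (h : Dat Γ T ℓ C) (c : ℝ → ℝ)
    (hc : ∀ x ∈ Γ, 0 ≤ c x ∧ c x ≤ 2) (e : ℝ) (he : ℓ ≤ e) :
    ∫ u in (-e)..e, ‖W Γ c u‖ ^ 2 ≤ 176 * e * (C * (T * ℓ)) := by
  have hl0 : 0 < ℓ := by linarith [h.hl]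
  have he0 : 0 < e := by linarith
  have he2 : 0 < 2 * e := by positivity
  have hpi4 := Real.pi_lt_d2
  have hpi0 := Real.pi_pos
  have hcont : Continuous (fun u => ‖W Γ c u‖ ^ 2) := by
    have := W_cont Γ c
    fun_prop
  set g : ℝ → ℝ := fun u => 2 * (tri (2 * e) u * ‖W Γ c u‖ ^ 2) with hg
  have hgi : Integrable g := (tri_integrable he2 hcont).const_mul 2
  have h1 : ∫ u in (-e)..e, ‖W Γ c u‖ ^ 2 ≤ ∫ u, g u := by
    rw [intervalIntegral.integral_of_le (by linarith), ← integral_indicator measurableSet_Ioc]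
    refine integral_mono ?_ hgi ?_
    · rw [integrable_indicator_iff measurableSet_Ioc]
      exact (hcont.integrableOn_Icc (a := -e) (b := e)).mono_set Set.Ioc_subset_Icc_self
    · intro u
      show (Set.Ioc (-e) e).indicator _ u ≤ g u
      by_cases hu : u ∈ Set.Ioc (-e) e
      · rw [Set.indicator_of_mem hu]
        have h2 : |u| ≤ e := abs_le.2 ⟨hu.1.le, hu.2⟩
        have h3 : 1 / 2 ≤ tri (2 * e) u := by
          rw [tri_in he2 (by linarith)]
          have : |u| / (2 * e) ≤ 1 / 2 := by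
            rw [div_le_div_iff₀ he2 (by norm_num)]; linarith
          linarith
        simp only [hg]
        nlinarith [sq_nonneg ‖W Γ c u‖]
      · rw [Set.indicator_of_notMem hu]
        simp only [hg]
        have := tri_nonneg (2 * e) u
        positivity
  have hti : ∀ x : ℝ, Integrable (fun v => tri (2 * e) v * Real.cos (2 * Real.pi * v * x)) :=
    fun x => tri_integrable he2 (by fun_prop)
  set κ : ℝ := 1 / (2 * Real.pi) with hκ
  have h2 : ∫ u, g u = 2 * ∑ x ∈ Γ, ∑ y ∈ Γ, c x * c y * KK (2 * e) (κ * (x - y)) := by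
    have e1 : ∀ u, g u = 2 * ∑ x ∈ Γ, ∑ y ∈ Γ,
        c x * c y * (tri (2 * e) u * Real.cos (2 * Real.pi * u * (κ * (x - y)))) := by
      intro u
      simp only [hg]
      rw [W_sq, mul_sum]
      congr 1
      refine sum_congr rfl fun x _ => ?_
      rw [mul_sum]
      refine sum_congr rfl fun y _ => ?_
      have e3 : 2 * Real.pi * u * (κ * (x - y)) = u * (x - y) := by
        rw [hκ]; field_simp
      rw [e3]; ring
    simp_rw [e1]
    rw [integral_const_mul, integral_finsetSum _ fun s _ =>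
      integrable_finsetSum _ fun s' _ => (hti _).const_mul _]
    congr 1
    refine sum_congr rfl fun x _ => ?_
    rw [integral_finsetSum _ fun s' _ => (hti _).const_mul _]
    refine sum_congr rfl fun y _ => ?_
    rw [integral_const_mul]
    rfl
  have h3 : ∀ d : ℝ, KK (2 * e) (κ * d) ≤ 22 * e * (1 / (1 + (ℓ * d) ^ 2)) := by
    intro d
    have a1 := KK_le he2 (κ * d)
    have a2 := KK_sq he2 (κ * d)
    have a3 := KK_nonneg he2 (κ * d)
    rw [mul_one_div, le_div_iff₀ (by positivity)]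
    have a4 : (ℓ * d) ^ 2 ≤ (2 * Real.pi * e) ^ 2 * (κ * d) ^ 2 := by
      have e4 : (2 * Real.pi * e) ^ 2 * (κ * d) ^ 2 = e ^ 2 * d ^ 2 := by
        rw [hκ]; field_simp
      rw [e4, mul_pow]
      have : ℓ ^ 2 ≤ e ^ 2 := pow_le_pow_left₀ hl0.le he 2
      gcongr
    have a5 : KK (2 * e) (κ * d) * (ℓ * d) ^ 2 ≤ (2 * Real.pi * e) ^ 2 * (1 / (2 * e)) := by
      calc KK (2 * e) (κ * d) * (ℓ * d) ^ 2 ≤
          KK (2 * e) (κ * d) * ((2 * Real.pi * e) ^ 2 * (κ * d) ^ 2) := by gcongr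
        _ = (2 * Real.pi * e) ^ 2 * (KK (2 * e) (κ * d) * (κ * d) ^ 2) := by ring
        _ ≤ _ := by gcongr
    have a6 : (2 * Real.pi * e) ^ 2 * (1 / (2 * e)) ≤ 20 * e := by
      have : (2 * Real.pi * e) ^ 2 * (1 / (2 * e)) = 2 * Real.pi ^ 2 * e := by
        field_simp
      rw [this]
      have : Real.pi ^ 2 ≤ 10 := by nlinarith
      nlinarith
    linarith
  refine h1.trans ?_
  rw [h2]
  have h4 : ∑ x ∈ Γ, ∑ y ∈ Γ, c x * c y * KK (2 * e) (κ * (x - y)) ≤ 88 * e * (C * (T * ℓ)) := by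
    calc ∑ x ∈ Γ, ∑ y ∈ Γ, c x * c y * KK (2 * e) (κ * (x - y)) ≤
        ∑ x ∈ Γ, ∑ y ∈ Γ, 88 * e * (1 / (1 + (ℓ * (x - y)) ^ 2)) := by
          refine sum_le_sum fun x hx => sum_le_sum fun y hy => ?_
          have b1 := hc x hx
          have b2 := hc y hy
          have b3 : c x * c y ≤ 2 * 2 := mul_le_mul b1.2 b2.2 b2.1 (by norm_num)
          have b4 := KK_nonneg he2 (κ * (x - y))
          have b5 := h3 (x - y)
          calc c x * c y * KK (2 * e) (κ * (x - y)) ≤ 2 * 2 * KK (2 * e) (κ * (x - y)) :=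
                mul_le_mul_of_nonneg_right b3 b4
            _ ≤ 2 * 2 * (22 * e * (1 / (1 + (ℓ * (x - y)) ^ 2))) := by gcongr
            _ = 88 * e * (1 / (1 + (ℓ * (x - y)) ^ 2)) := by ring
      _ = 88 * e * ∑ x ∈ Γ, ∑ y ∈ Γ, 1 / (1 + (ℓ * (x - y)) ^ 2) := by
          rw [mul_sum]; refine sum_congr rfl fun x _ => ?_; rw [mul_sum]
      _ ≤ _ := by
          have := h.pairs
          gcongr
  linarith

/-- the mean of a cosine over a short interval -/
noncomputable def sx (T x : ℝ) : ℝ := ∫ s in (-(1 / (2 * T)))..(1 / (2 * T)), Real.cos (s * (x - T / 2))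

lemma sx_ge {T x : ℝ} (hT : 0 < T) (hx : 0 < x ∧ x ≤ T) : 1 / (2 * T) ≤ sx T x := by
  have hc : Continuous (fun s : ℝ => Real.cos (s * (x - T / 2))) := by fun_prop
  have h1 : ∫ s in (-(1 / (2 * T)))..(1 / (2 * T)), (1 / 2 : ℝ) ≤ sx T x := by
    apply intervalIntegral.integral_mono_on
    · have : (0 : ℝ) ≤ 1 / (2 * T) := by positivity
      linarith
    · exact intervalIntegrable_const
    · exact hc.intervalIntegrable _ _
    · intro s hs
      have h2 : |s * (x - T / 2)| ≤ 1 / 4 := by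
        rw [abs_mul]
        have a1 : |s| ≤ 1 / (2 * T) := abs_le.2 ⟨hs.1, hs.2⟩
        have a2 : |x - T / 2| ≤ T / 2 := by
          rw [abs_le]; constructor <;> linarith [hx.1, hx.2]
        calc |s| * |x - T / 2| ≤ 1 / (2 * T) * (T / 2) :=
              mul_le_mul a1 a2 (abs_nonneg _) (by positivity)
          _ = 1 / 4 := by field_simp; norm_num
      have h3 := Real.one_sub_sq_div_two_le_cos (x := s * (x - T / 2))
      have h4 : (s * (x - T / 2)) ^ 2 ≤ (1 / 4) ^ 2 := by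
        rw [← sq_abs]
        exact pow_le_pow_left₀ (abs_nonneg _) h2 2
      linarith
  rw [intervalIntegral.integral_const, smul_eq_mul] at h1
  have : (1 / (2 * T) - -(1 / (2 * T))) * (1 / 2) = 1 / (2 * T) := by ring
  rw [this] at h1
  exact h1

lemma int_exp (T x : ℝ) : ∫ s in (-(1 / (2 * T)))..(1 / (2 * T)),
    cexp (I * ((s * (x - T / 2) : ℝ) : ℂ)) = (sx T x : ℂ) := by
  set a := 1 / (2 * T) with ha
  set y := x - T / 2 with hy
  have h0 : ∀ s : ℝ, cexp (I * ((s * y : ℝ) : ℂ)) =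
      ((Real.cos (s * y) : ℝ) : ℂ) + ((Real.sin (s * y) : ℝ) : ℂ) * I := by
    intro s
    rw [mul_comm, Complex.exp_mul_I, Complex.ofReal_cos, Complex.ofReal_sin]
  simp_rw [h0]
  have hc1 : Continuous (fun s : ℝ => ((Real.cos (s * y) : ℝ) : ℂ)) := by fun_prop
  have hc2 : Continuous (fun s : ℝ => ((Real.sin (s * y) : ℝ) : ℂ)) := by fun_prop
  have hc3 : Continuous (fun s : ℝ => ((Real.sin (s * y) : ℝ) : ℂ) * I) := by fun_prop
  rw [intervalIntegral.integral_add (hc1.intervalIntegrable _ _)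
    (hc3.intervalIntegrable _ _),
    intervalIntegral.integral_mul_const, intervalIntegral.integral_ofReal,
    intervalIntegral.integral_ofReal]
  have hs : ∫ s in (-a)..a, Real.sin (s * y) = 0 := by
    have h1 := intervalIntegral.integral_comp_neg (a := -a) (b := a)
      (fun s : ℝ => Real.sin (s * y))
    rw [neg_neg] at h1
    have h2 : ∫ s in (-a)..a, Real.sin (-s * y) = -∫ s in (-a)..a, Real.sin (s * y) := by
      rw [← intervalIntegral.integral_neg]
      congr 1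
      funext s
      rw [neg_mul, Real.sin_neg]
    rw [h2] at h1
    linarith
  rw [hs]
  simp only [ofReal_zero, zero_mul, add_zero]
  rfl

/-- the weights -/
noncomputable def cw (T x : ℝ) : ℝ := 1 / (T * sx T x)

lemma cw_bd {T x : ℝ} (hT : 0 < T) (hx : 0 < x ∧ x ≤ T) : 0 ≤ cw T x ∧ cw T x ≤ 2 := by
  have h1 := sx_ge hT hx
  have h2 : 1 / 2 ≤ T * sx T x := by
    calc (1 : ℝ) / 2 = T * (1 / (2 * T)) := by field_simp
      _ ≤ T * sx T x := by gcongr
  unfold cw
  constructor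
  · positivity
  · rw [div_le_iff₀ (by linarith)]
    linarith

/-- the reproducing formula -/
lemma repr {Γ : Finset ℝ} {T ℓ C : ℝ} (h : Dat Γ T ℓ C) (w : ℝ) :
    ‖G Γ w‖ ^ 2 ≤ T * ∫ v in (w - 1 / (2 * T))..(w + 1 / (2 * T)), ‖W Γ (cw T) v‖ ^ 2 := by
  have hT : 0 < T := by linarith [h.hT]
  set a := 1 / (2 * T) with ha
  have ha0 : 0 < a := by positivity
  have hWc := W_cont Γ (cw T)
  -- the identity
  have h1 : ∫ v in (w - a)..(w + a), cexp (-(I * ((v * (T / 2) : ℝ) : ℂ))) * W Γ (cw T) v =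
      (1 / T : ℝ) * (cexp (-(I * ((w * (T / 2) : ℝ) : ℂ))) * G Γ w) := by
    have e1 : ∀ v : ℝ, cexp (-(I * ((v * (T / 2) : ℝ) : ℂ))) * W Γ (cw T) v =
        ∑ x ∈ Γ, (cw T x : ℂ) * cexp (I * ((v * (x - T / 2) : ℝ) : ℂ)) := by
      intro v
      unfold W
      rw [mul_sum]
      refine sum_congr rfl fun x _ => ?_
      have : cexp (-(I * ((v * (T / 2) : ℝ) : ℂ))) * ((cw T x : ℂ) * cexp (I * ((v * x : ℝ) : ℂ))) =
        (cw T x : ℂ) * (cexp (-(I * ((v * (T / 2) : ℝ) : ℂ))) * cexp (I * ((v * x : ℝ) : ℂ))) := by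
        ring
      rw [this, ← Complex.exp_add]
      congr 2
      push_cast; ring
    simp_rw [e1]
    rw [intervalIntegral.integral_finsetSum]
    · unfold G
      rw [mul_sum, mul_sum]
      refine sum_congr rfl fun x hx => ?_
      rw [intervalIntegral.integral_const_mul]
      have e2 : ∫ v in (w - a)..(w + a), cexp (I * ((v * (x - T / 2) : ℝ) : ℂ)) =
          cexp (I * ((w * (x - T / 2) : ℝ) : ℂ)) * (sx T x : ℂ) := by
        rw [← int_exp]
        rw [← intervalIntegral.integral_const_mul]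
        have e3 := intervalIntegral.integral_comp_add_right (a := -a) (b := a)
          (fun v : ℝ => cexp (I * ((v * (x - T / 2) : ℝ) : ℂ))) w
        have e4 : -a + w = w - a := by ring
        have e5 : a + w = w + a := by ring
        rw [e4, e5] at e3
        rw [← e3]
        congr 1
        funext s
        rw [← Complex.exp_add]
        congr 1
        push_cast; ring
      rw [e2]
      have hs := sx_ge hT (h.pos x hx)
      have hs0 : 0 < sx T x := lt_of_lt_of_le (by positivity) hs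
      have e6 : cexp (I * ((w * (x - T / 2) : ℝ) : ℂ)) =
          cexp (-(I * ((w * (T / 2) : ℝ) : ℂ))) * cexp (I * ((w * x : ℝ) : ℂ)) := by
        rw [← Complex.exp_add]
        congr 1
        push_cast; ring
      rw [e6]
      have e7 : (cw T x : ℂ) * (sx T x : ℂ) = ((1 / T : ℝ) : ℂ) := by
        rw [← Complex.ofReal_mul]
        congr 1
        unfold cw
        field_simp
      calc (cw T x : ℂ) * (cexp (-(I * ((w * (T / 2) : ℝ) : ℂ))) * cexp (I * ((w * x : ℝ) : ℂ)) *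
            (sx T x : ℂ)) = ((cw T x : ℂ) * (sx T x : ℂ)) *
            (cexp (-(I * ((w * (T / 2) : ℝ) : ℂ))) * cexp (I * ((w * x : ℝ) : ℂ))) := by ring
        _ = _ := by rw [e7]
    · intro x _
      apply Continuous.intervalIntegrable
      fun_prop
  -- the norm
  have hnc : Continuous (fun v => ‖W Γ (cw T) v‖) := hWc.norm
  have h2 : ‖G Γ w‖ ≤ T * ∫ v in (w - a)..(w + a), ‖W Γ (cw T) v‖ := by
    have b1 := intervalIntegral.norm_integral_le_integral_norm (μ := volume) (a := w - a)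
      (b := w + a) (f := fun v => cexp (-(I * ((v * (T / 2) : ℝ) : ℂ))) * W Γ (cw T) v)
      (by linarith)
    rw [h1] at b1
    have b2 : ∀ v : ℝ, ‖cexp (-(I * ((v * (T / 2) : ℝ) : ℂ)))‖ = 1 := by
      intro v
      have : -(I * ((v * (T / 2) : ℝ) : ℂ)) = ((-(v * (T / 2)) : ℝ) : ℂ) * I := by
        push_cast; ring
      rw [this, Complex.norm_exp_ofReal_mul_I]
    simp_rw [norm_mul, b2, one_mul] at b1
    rw [Complex.norm_real, Real.norm_eq_abs, abs_of_pos (by positivity : (0 : ℝ) < 1 / T)] at b1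
    calc ‖G Γ w‖ = T * (1 / T * ‖G Γ w‖) := by field_simp
      _ ≤ T * ∫ v in (w - a)..(w + a), ‖W Γ (cw T) v‖ := by gcongr
  -- Cauchy-Schwarz
  set A := T * ∫ v in (w - a)..(w + a), ‖W Γ (cw T) v‖ with hA
  have h3 : 0 ≤ ∫ v in (w - a)..(w + a), (‖W Γ (cw T) v‖ - A) ^ 2 := by
    apply intervalIntegral.integral_nonneg (by linarith)
    intro u _
    positivity
  have h4 : ∫ v in (w - a)..(w + a), (‖W Γ (cw T) v‖ - A) ^ 2 =
      (∫ v in (w - a)..(w + a), ‖W Γ (cw T) v‖ ^ 2) - A ^ 2 / T := by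
    have e1 : ∀ v : ℝ, (‖W Γ (cw T) v‖ - A) ^ 2 =
        ‖W Γ (cw T) v‖ ^ 2 + (-(2 * A) * ‖W Γ (cw T) v‖ + A ^ 2) := by intro v; ring
    simp_rw [e1]
    have k1 : Continuous (fun v => ‖W Γ (cw T) v‖ ^ 2) := by fun_prop
    have k2 : Continuous (fun v => -(2 * A) * ‖W Γ (cw T) v‖) := by fun_prop
    have k3 : Continuous (fun v => -(2 * A) * ‖W Γ (cw T) v‖ + A ^ 2) := by fun_prop
    rw [intervalIntegral.integral_add (k1.intervalIntegrable _ _) (k3.intervalIntegrable _ _),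
      intervalIntegral.integral_add (k2.intervalIntegrable _ _)
      intervalIntegrable_const, intervalIntegral.integral_const_mul,
      intervalIntegral.integral_const]
    have e2 : ∫ v in (w - a)..(w + a), ‖W Γ (cw T) v‖ = A / T := by rw [hA]; field_simp
    rw [e2, smul_eq_mul]
    have e3 : w + a - (w - a) = 1 / T := by rw [ha]; field_simp; ring
    rw [e3]
    ring
  rw [h4] at h3
  have hG0 : 0 ≤ ‖G Γ w‖ := norm_nonneg _
  have h5 : ‖G Γ w‖ ^ 2 ≤ A ^ 2 := pow_le_pow_left₀ hG0 h2 2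
  have h6 : A ^ 2 ≤ T * ∫ v in (w - a)..(w + a), ‖W Γ (cw T) v‖ ^ 2 := by
    have : A ^ 2 / T ≤ ∫ v in (w - a)..(w + a), ‖W Γ (cw T) v‖ ^ 2 := by linarith
    calc A ^ 2 = T * (A ^ 2 / T) := by field_simp
      _ ≤ _ := by gcongr
  exact h5.trans h6

/-- integrals over disjoint short intervals -/
lemma sum_int (F : ℝ → ℝ) (hF : Continuous F) (hF0 : ∀ v, 0 ≤ F v) (T V : ℝ) (hT : 1 ≤ T)
    (hV0 : 0 ≤ V) (Ws : Finset ℝ) (hV : ∀ w ∈ Ws, |w| ≤ V)
    (hs : ∀ w ∈ Ws, ∀ w' ∈ Ws, w ≠ w' → 1 / T ≤ |w - w'|) :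
    ∑ w ∈ Ws, ∫ v in (w - 1 / (2 * T))..(w + 1 / (2 * T)), F v ≤
      ∫ v in (-(V + 1))..(V + 1), F v := by
  set a := 1 / (2 * T) with ha
  have ha0 : 0 < a := by positivity
  have ha1 : a ≤ 1 := by
    rw [ha, div_le_iff₀ (by positivity)]; linarith
  have h2a : 1 / T = 2 * a := by rw [ha]; field_simp
  have e1 : ∑ w ∈ Ws, ∫ v in (w - a)..(w + a), F v =
      ∫ v in ⋃ w ∈ Ws, Set.Ioc (w - a) (w + a), F v := by
    rw [integral_biUnion_finset Ws (fun w _ => measurableSet_Ioc)]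
    · refine sum_congr rfl fun w _ => ?_
      rw [intervalIntegral.integral_of_le (by linarith)]
    · intro w hw w' hw' hne
      show Disjoint (Set.Ioc (w - a) (w + a)) (Set.Ioc (w' - a) (w' + a))
      rw [Set.disjoint_left]
      intro v h1 h2
      have h3 := hs w hw w' hw' hne
      rw [h2a] at h3
      rcases le_abs.1 h3 with h4 | h4
      · linarith [h1.1, h1.2, h2.1, h2.2]
      · linarith [h1.1, h1.2, h2.1, h2.2]
    · intro w _
      exact (hF.integrableOn_Icc (a := w - a) (b := w + a)).mono_set Set.Ioc_subset_Icc_self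
  rw [e1, intervalIntegral.integral_of_le (by linarith)]
  apply setIntegral_mono_set
  · exact (hF.integrableOn_Icc (a := -(V + 1)) (b := V + 1)).mono_set Set.Ioc_subset_Icc_self
  · exact Filter.Eventually.of_forall fun v => hF0 v
  · apply Filter.Eventually.of_forall
    intro v hv
    have hv' : v ∈ ⋃ w ∈ Ws, Set.Ioc (w - a) (w + a) := hv
    rw [Set.mem_iUnion₂] at hv'
    obtain ⟨w, hw, h1⟩ := hv'
    have h2 := abs_le.1 (hV w hw)
    show v ∈ Set.Ioc (-(V + 1)) (V + 1)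
    exact ⟨by linarith [h1.1], by linarith [h1.2]⟩

theorem s_LS : S_LS := by
  intro C hC
  refine ⟨352 * C, by linarith, ?_⟩
  intro Γ T ℓ h V Ws hV hW hs
  have hT : 0 < T := by linarith [h.hT]
  have hl0 : 0 < ℓ := by linarith [h.hl]
  have hl1 := h.hl
  have hWc := W_cont Γ (cw T)
  have h1 : ∑ w ∈ Ws, ‖G Γ w‖ ^ 2 ≤
      ∑ w ∈ Ws, T * ∫ v in (w - 1 / (2 * T))..(w + 1 / (2 * T)), ‖W Γ (cw T) v‖ ^ 2 :=
    sum_le_sum fun w _ => repr h w
  rw [← mul_sum] at h1
  have h2 := sum_int (fun v => ‖W Γ (cw T) v‖ ^ 2) (hWc.norm.pow 2) (fun v => by positivity) T V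
    h.hT (by linarith) Ws hW hs
  have h3 := msqc h (cw T) (fun x hx => cw_bd hT (h.pos x hx)) (V + 1) (by linarith)
  calc ∑ w ∈ Ws, ‖G Γ w‖ ^ 2 ≤ T * (176 * (V + 1) * (C * (T * ℓ))) :=
        h1.trans (mul_le_mul_of_nonneg_left (h2.trans h3) hT.le)
    _ ≤ T * (176 * (2 * V) * (C * (T * ℓ))) := by
        have : V + 1 ≤ 2 * V := by linarith
        gcongr
    _ = 352 * C * (V / ℓ) * (T * ℓ) ^ 2 := by field_simp; ring

end Pool.Agent.L7h22.LF
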